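import Pool.Agent.helper40.SU.SpecC

/-! Row SMR of project su (MP_c66272_nt). -/

set_option autoImplicit false

open Finset

namespace Pool.Agent.SU

/-- number of integers of a class in an interval -/
theorem SMR_count (S : Finset ℕ) (M v : ℕ) (a b : ℝ) (hM : 1 ≤ M) (ha : 0 ≤ a) (hab : a ≤ b)
    (hS : ∀ n, n ∈ S ↔ (n ≡ v [MOD M] ∧ a < n ∧ (n : ℝ) ≤ b)) : |(S.card : ℝ) - (b - a) / M| ≤ 1 := by
  have hb : 0 ≤ b := ha.trans hab
  have h1 : S = (Ioc ⌊a⌋₊ ⌊b⌋₊).filter (fun x => x ≡ v [MOD M]) := by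
    ext n
    rw [hS, Finset.mem_filter, Finset.mem_Ioc, Nat.floor_lt ha, Nat.le_floor_iff hb]
    tauto
  have hM0 : (0 : ℝ) < (M : ℝ) := by exact_mod_cast hM
  have hM0' : (0 : ℚ) < (M : ℚ) := by exact_mod_cast hM
  have key : ∀ x : ℝ, 0 ≤ x → ((⌊((⌊x⌋₊ : ℚ) - v) / (M : ℚ)⌋ : ℤ) : ℝ) ≤ (x - v) / M ∧
      (x - v) / M < ((⌊((⌊x⌋₊ : ℚ) - v) / (M : ℚ)⌋ : ℤ) : ℝ) + 1 := by
    intro x hx
    set X : ℤ := ⌊((⌊x⌋₊ : ℚ) - v) / (M : ℚ)⌋ with hX
    have e1 : (X : ℚ) ≤ ((⌊x⌋₊ : ℚ) - v) / (M : ℚ) := Int.floor_le _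
    have e2 : ((⌊x⌋₊ : ℚ) - v) / (M : ℚ) < (X : ℚ) + 1 := Int.lt_floor_add_one _
    rw [le_div_iff₀ hM0'] at e1
    rw [div_lt_iff₀ hM0'] at e2
    have e1' : X * (M : ℤ) ≤ (⌊x⌋₊ : ℤ) - v := by exact_mod_cast e1
    have e2' : (⌊x⌋₊ : ℤ) - v < (X + 1) * (M : ℤ) := by exact_mod_cast e2
    have f1 : ((⌊x⌋₊ : ℕ) : ℝ) ≤ x := Nat.floor_le hx
    have f2 : x < ((⌊x⌋₊ : ℕ) : ℝ) + 1 := Nat.lt_floor_add_one x
    constructor
    · rw [le_div_iff₀ hM0]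
      have g1 : ((X * (M : ℤ) : ℤ) : ℝ) ≤ (((⌊x⌋₊ : ℤ) - v : ℤ) : ℝ) := by exact_mod_cast e1'
      push_cast at g1
      linarith
    · rw [div_lt_iff₀ hM0]
      have e3 : (⌊x⌋₊ : ℤ) - v + 1 ≤ (X + 1) * (M : ℤ) := e2'
      have g1 : (((⌊x⌋₊ : ℤ) - v + 1 : ℤ) : ℝ) ≤ (((X + 1) * (M : ℤ) : ℤ) : ℝ) := by exact_mod_cast e3
      push_cast at g1
      linarith
  have h2 := Nat.Ioc_filter_modEq_card ⌊a⌋₊ ⌊b⌋₊ (r := M) (by omega) v
  rw [← h1] at h2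
  have h3 : ((S.card : ℤ) : ℝ) = max (((⌊((⌊b⌋₊ : ℚ) - v) / (M : ℚ)⌋ : ℤ) : ℝ) - ((⌊((⌊a⌋₊ : ℚ) - v) / (M : ℚ)⌋ : ℤ) : ℝ)) 0 := by
    rw [h2]
    push_cast
    rfl
  rw [Int.cast_natCast] at h3
  obtain ⟨ka1, ka2⟩ := key a ha
  obtain ⟨kb1, kb2⟩ := key b hb
  have hd : (b - a) / M = (b - v) / M - (a - v) / M := by ring
  have hd0 : 0 ≤ (b - a) / M := div_nonneg (by linarith) hM0.le
  rw [h3, abs_le]
  constructor
  · have := le_max_left (((⌊((⌊b⌋₊ : ℚ) - v) / (M : ℚ)⌋ : ℤ) : ℝ) - ((⌊((⌊a⌋₊ : ℚ) - v) / (M : ℚ)⌋ : ℤ) : ℝ)) 0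
    linarith
  · rcases max_cases (((⌊((⌊b⌋₊ : ℚ) - v) / (M : ℚ)⌋ : ℤ) : ℝ) - ((⌊((⌊a⌋₊ : ℚ) - v) / (M : ℚ)⌋ : ℤ) : ℝ)) 0 with
      ⟨h, _⟩ | ⟨h, _⟩
    · rw [h]
      linarith
    · rw [h]
      linarith

theorem SMR_class (x M w : ℕ) (hM : 1 < M) (hx : x.Coprime M) :
    ∃ v, ∀ t, (x * t ≡ w [MOD M] ↔ t ≡ v [MOD M]) := by
  obtain ⟨i, -, hi⟩ := Nat.exists_mul_mod_eq_one_of_coprime hx hM
  have hi' : x * i ≡ 1 [MOD M] := by
    unfold Nat.ModEq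
    rw [hi, Nat.mod_eq_of_lt hM]
  refine ⟨i * w, fun t => ⟨fun h => ?_, fun h => ?_⟩⟩
  · have h1 : i * (x * t) ≡ i * w [MOD M] := Nat.ModEq.mul_left i h
    have h2 : i * (x * t) ≡ t [MOD M] := by
      have : i * (x * t) = (x * i) * t := by ring
      rw [this]
      simpa using Nat.ModEq.mul_right t hi'
    exact h2.symm.trans h1
  · have h1 : x * t ≡ x * (i * w) [MOD M] := Nat.ModEq.mul_left x h
    have h2 : x * (i * w) ≡ w [MOD M] := by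
      have : x * (i * w) = (x * i) * w := by ring
      rw [this]
      simpa using Nat.ModEq.mul_right w hi'
    exact h1.trans h2

theorem SMR_cop4 {q n : ℕ} (h : n.Coprime (2 * q)) : n.Coprime (4 * q) := by
  have h2 : n.Coprime 2 := Nat.Coprime.coprime_mul_right_right h
  have hq : n.Coprime q := Nat.Coprime.coprime_mul_left_right h
  have e : 4 * q = 2 * (2 * q) := by ring
  rw [e]
  exact Nat.Coprime.mul_right h2 h

/-- a number in the class of `w₀` is prime to `2 q` -/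
theorem SMR_copw {q w₀ n : ℕ} (hw : w₀.Coprime (2 * q)) (h : n ≡ w₀ [MOD 4 * q]) : n.Coprime (2 * q) := by
  have h1 : n ≡ w₀ [MOD 2 * q] := Nat.ModEq.of_mul_left 2 (by
    have e : 2 * (2 * q) = 4 * q := by ring
    rw [e]
    exact h)
  have h2 := Nat.ModEq.gcd_eq h1
  unfold Nat.Coprime at hw ⊢
  rw [h2, hw]

section

variable {q w₀ j N G : ℕ} {T δ : ℝ}

theorem SMR_mem (h : ℕ) : h ∈ Wj q w₀ T δ j ↔
    h < ⌊2 * T⌋₊ + 1 ∧ (j * h ≡ w₀ [MOD 4 * q] ∧ T < (j : ℝ) * h ∧ (j : ℝ) * h ≤ (1 + δ) * T) := by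
  unfold Wj
  rw [Finset.mem_filter, Finset.mem_range]

/-- small divisors -/
theorem SMR_small (hq : Odd q) (hw : w₀.Coprime (2 * q)) (hj : j.Coprime (2 * q)) (hT : 1 ≤ T) (hδ : 0 < δ)
    (hδ1 : δ ≤ 1) (hj1 : 1 ≤ j) (g : ℕ) (hg : g ∈ cop q G) :
    |(((Wj q w₀ T δ j).filter (fun h => g ∣ h)).card : ℝ) - δ * T / (4 * q * j) * (1 / (g : ℝ))| ≤ 1 := by
  unfold cop at hg
  rw [Finset.mem_filter, Finset.mem_Icc] at hg
  obtain ⟨⟨hg1, -⟩, hgc⟩ := hg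
  have hq1 : 1 ≤ q := by
    rcases hq with ⟨r, rfl⟩
    omega
  have hjg : (j * g).Coprime (4 * q) := SMR_cop4 (Nat.Coprime.mul_left hj hgc)
  obtain ⟨v, hv⟩ := SMR_class (j * g) (4 * q) w₀ (by omega) hjg
  have hjR : (1 : ℝ) ≤ j := by exact_mod_cast hj1
  have hgR : (1 : ℝ) ≤ g := by exact_mod_cast hg1
  have hjg0 : (0 : ℝ) < (j : ℝ) * g := by positivity
  have hjg1 : (1 : ℝ) ≤ (j : ℝ) * g := by nlinarith
  set S : Finset ℕ := (range (⌊2 * T⌋₊ + 1)).filter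
    (fun t => t ≡ v [MOD 4 * q] ∧ T / ((j : ℝ) * g) < t ∧ (t : ℝ) ≤ (1 + δ) * T / ((j : ℝ) * g)) with hS
  have hb2 : (1 + δ) * T / ((j : ℝ) * g) ≤ 2 * T := by
    rw [div_le_iff₀ hjg0]
    nlinarith
  have hSm : ∀ n, n ∈ S ↔ (n ≡ v [MOD 4 * q] ∧ T / ((j : ℝ) * g) < n ∧ (n : ℝ) ≤ (1 + δ) * T / ((j : ℝ) * g)) := by
    intro n
    rw [hS, Finset.mem_filter, Finset.mem_range]
    constructor
    · exact fun h => h.2
    · intro h
      refine ⟨?_, h⟩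
      rw [Nat.lt_add_one_iff, Nat.le_floor_iff (by linarith)]
      exact h.2.2.trans hb2
  have hcard : ((Wj q w₀ T δ j).filter (fun h => g ∣ h)) = S.image (fun t => g * t) := by
    ext h
    rw [Finset.mem_filter, SMR_mem, Finset.mem_image]
    constructor
    · rintro ⟨⟨h1, h2, h3, h4⟩, t, rfl⟩
      refine ⟨t, (hSm t).2 ⟨?_, ?_, ?_⟩, rfl⟩
      · rw [← hv]
        have e : j * g * t = j * (g * t) := by ring
        rw [e]
        exact h2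
      · rw [div_lt_iff₀ hjg0]
        push_cast at h3
        calc T < (j : ℝ) * (g * t) := h3
          _ = t * ((j : ℝ) * g) := by ring
      · rw [le_div_iff₀ hjg0]
        push_cast at h4
        calc t * ((j : ℝ) * g) = (j : ℝ) * (g * t) := by ring
          _ ≤ (1 + δ) * T := h4
    · rintro ⟨t, ht, rfl⟩
      obtain ⟨t1, t2, t3⟩ := (hSm t).1 ht
      rw [← hv] at t1
      rw [div_lt_iff₀ hjg0] at t2
      rw [le_div_iff₀ hjg0] at t3
      have e : j * g * t = j * (g * t) := by ring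
      rw [e] at t1
      have e4 : (j : ℝ) * ((g * t : ℕ) : ℝ) ≤ (1 + δ) * T := by
        push_cast
        calc (j : ℝ) * (g * t) = t * ((j : ℝ) * g) := by ring
          _ ≤ (1 + δ) * T := t3
      refine ⟨⟨?_, t1, ?_, e4⟩, dvd_mul_right _ _⟩
      · rw [Nat.lt_add_one_iff, Nat.le_floor_iff (by linarith)]
        have h0 : (0 : ℝ) ≤ ((g * t : ℕ) : ℝ) := Nat.cast_nonneg _
        nlinarith
      · push_cast
        calc T < t * ((j : ℝ) * g) := t2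
          _ = (j : ℝ) * (g * t) := by ring
  rw [hcard, Finset.card_image_of_injective _ (fun x y hxy => Nat.eq_of_mul_eq_mul_left (by omega) hxy)]
  have h5 := SMR_count S (4 * q) v (T / ((j : ℝ) * g)) ((1 + δ) * T / ((j : ℝ) * g)) (by omega)
    (by positivity) (by
      apply div_le_div_of_nonneg_right _ hjg0.le
      nlinarith) hSm
  have e6 : ((1 + δ) * T / ((j : ℝ) * g) - T / ((j : ℝ) * g)) / ((4 * q : ℕ) : ℝ) =
      δ * T / (4 * q * j) * (1 / (g : ℝ)) := by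
    have hq0 : (q : ℝ) ≠ 0 := by
      have : (1 : ℝ) ≤ q := by exact_mod_cast hq1
      linarith
    have hj0 : (j : ℝ) ≠ 0 := by linarith
    have hg0 : (g : ℝ) ≠ 0 := by linarith
    push_cast
    field_simp
    ring
  rw [e6] at h5
  exact h5

/-- the large divisors with cofactor `t` -/
noncomputable def SMR_Gt (q w₀ j G : ℕ) (T δ : ℝ) (t : ℕ) : Finset ℕ :=
  (range (⌊2 * T⌋₊ + 1)).filter (fun g => G < g ∧ g * t ∈ Wj q w₀ T δ j)

theorem SMR_large (hCHS : CHS_stmt) (hq : Odd q) (hw : w₀.Coprime (2 * q)) (hj : j.Coprime (2 * q))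
    (hN : N.Coprime (2 * q)) (hN4 : N % 4 = 1) (hNs : ¬ IsSquare N) (hT : 1 ≤ T) (hδ : 0 < δ)
    (hδ1 : δ ≤ 1) (hj1 : 1 ≤ j) (t : ℕ) (ht : 1 ≤ t) :
    |∑ g ∈ SMR_Gt q w₀ j G T δ t, jacobiSym N g| ≤ (N : ℤ) := by
  have hq1 : 1 ≤ q := by
    rcases hq with ⟨r, rfl⟩
    omega
  rcases (SMR_Gt q w₀ j G T δ t).eq_empty_or_nonempty with he | ⟨g₀, hg₀⟩
  · rw [he, Finset.sum_empty, abs_zero]
    exact Int.natCast_nonneg N
  · have hmem : ∀ g, g ∈ SMR_Gt q w₀ j G T δ t ↔ (g < ⌊2 * T⌋₊ + 1 ∧ G < g ∧ g * t ∈ Wj q w₀ T δ j) := by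
      intro g
      unfold SMR_Gt
      rw [Finset.mem_filter, Finset.mem_range]
    obtain ⟨-, -, hg₀W⟩ := (hmem g₀).1 hg₀
    rw [SMR_mem] at hg₀W
    have hc := SMR_copw hw hg₀W.2.1
    have hct : (g₀ * t).Coprime (2 * q) := Nat.Coprime.coprime_mul_left hc
    have hcg : g₀.Coprime (2 * q) := Nat.Coprime.coprime_mul_right hct
    have hct' : t.Coprime (2 * q) := Nat.Coprime.coprime_mul_left hct
    obtain ⟨v, hv⟩ := SMR_class (j * t) (4 * q) w₀ (by omega) (SMR_cop4 (Nat.Coprime.mul_left hj hct'))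
    have hjR : (1 : ℝ) ≤ j := by exact_mod_cast hj1
    have htR : (1 : ℝ) ≤ t := by exact_mod_cast ht
    have hjt0 : (0 : ℝ) < (j : ℝ) * t := by positivity
    have hjt1 : (1 : ℝ) ≤ (j : ℝ) * t := by nlinarith
    have heq : SMR_Gt q w₀ j G T δ t =
        (Ioc (max G ⌊T / ((j : ℝ) * t)⌋₊) ⌊(1 + δ) * T / ((j : ℝ) * t)⌋₊).filter (fun g => g ≡ v [MOD 4 * q]) := by
      ext g
      rw [hmem, SMR_mem, Finset.mem_filter, Finset.mem_Ioc, max_lt_iff, Nat.floor_lt (by positivity),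
        Nat.le_floor_iff (by positivity), ← hv g, div_lt_iff₀ hjt0, le_div_iff₀ hjt0]
      have e1 : j * t * g = j * (g * t) := by ring
      have e2 : (g : ℝ) * ((j : ℝ) * t) = (j : ℝ) * ((g * t : ℕ) : ℝ) := by
        push_cast
        ring
      rw [e1, e2]
      constructor
      · rintro ⟨-, h2, -, h4, h5, h6⟩
        exact ⟨⟨⟨h2, h5⟩, h6⟩, h4⟩
      · rintro ⟨⟨⟨h2, h5⟩, h6⟩, h4⟩
        have h0 : (0 : ℝ) ≤ ((g * t : ℕ) : ℝ) := Nat.cast_nonneg _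
        have h7 : ((g * t : ℕ) : ℝ) ≤ 2 * T := by nlinarith
        have h8 : g * t < ⌊2 * T⌋₊ + 1 := by
          rw [Nat.lt_add_one_iff, Nat.le_floor_iff (by linarith)]
          exact h7
        refine ⟨?_, h2, h8, h4, h5, h6⟩
        have : g ≤ g * t := Nat.le_mul_of_pos_right g ht
        omega
    have hvodd : Odd v := by
      have h1 : g₀ ≡ v [MOD 4 * q] := by
        rw [heq, Finset.mem_filter] at hg₀
        exact hg₀.2
      have h2 : g₀ ≡ v [MOD 2] := Nat.ModEq.of_dvd ⟨2 * q, by ring⟩ h1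
      have h3 : Odd g₀ := by
        exact Nat.coprime_two_right.1 (Nat.Coprime.coprime_mul_right_right hcg)
      rw [Nat.odd_iff] at h3 ⊢
      unfold Nat.ModEq at h2
      omega
    rw [heq]
    exact hCHS N (4 * q) v hN4 hNs ⟨2 * q, by ring⟩ (SMR_cop4 hN).symm hvodd _ _

end

theorem SMR (hCHS : CHS_stmt) : SMR_stmt := by
  intro q w₀ j N G T δ hq hw hj hN hN4 hNs hT hδ hδ1 hj1 hG
  have hT0 : (0 : ℝ) < T := by linarith
  have hjR : (1 : ℝ) ≤ j := by exact_mod_cast hj1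
  have hGR : (1 : ℝ) ≤ G := by exact_mod_cast hG
  have hWpos : ∀ h ∈ Wj q w₀ T δ j, h ≠ 0 := by
    intro h hh h0
    rw [SMR_mem] at hh
    have := hh.2.2.1
    rw [h0] at this
    simp at this
    linarith
  have hWc : ∀ h ∈ Wj q w₀ T δ j, h.Coprime (2 * q) := by
    intro h hh
    rw [SMR_mem] at hh
    exact Nat.Coprime.coprime_mul_left (SMR_copw hw hh.2.1)
  -- cutting the divisors
  have hsplit : ∑ h ∈ Wj q w₀ T δ j, (rr N h : ℝ) =
      ∑ h ∈ Wj q w₀ T δ j, ∑ g ∈ h.divisors.filter (fun g => g ≤ G), (jacobiSym N g : ℝ) +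
      ∑ h ∈ Wj q w₀ T δ j, ∑ g ∈ h.divisors.filter (fun g => ¬ g ≤ G), (jacobiSym N g : ℝ) := by
    rw [← Finset.sum_add_distrib]
    apply Finset.sum_congr rfl
    intro h _
    rw [Finset.sum_filter_add_sum_filter_not]
    unfold rr
    push_cast
    rfl
  -- the small divisors
  have hsmall : ∑ h ∈ Wj q w₀ T δ j, ∑ g ∈ h.divisors.filter (fun g => g ≤ G), (jacobiSym N g : ℝ) =
      ∑ g ∈ cop q G, (((Wj q w₀ T δ j).filter (fun h => g ∣ h)).card : ℝ) * (jacobiSym N g : ℝ) := by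
    have h1 : ∀ h ∈ Wj q w₀ T δ j, ∑ g ∈ h.divisors.filter (fun g => g ≤ G), (jacobiSym N g : ℝ) =
        ∑ g ∈ cop q G, if g ∣ h then (jacobiSym N g : ℝ) else 0 := by
      intro h hh
      rw [← Finset.sum_filter]
      apply Finset.sum_congr _ (fun _ _ => rfl)
      ext g
      unfold cop
      simp only [Finset.mem_filter, Nat.mem_divisors, Finset.mem_Icc]
      constructor
      · rintro ⟨⟨h1, h2⟩, h3⟩
        exact ⟨⟨⟨Nat.pos_of_dvd_of_pos h1 (Nat.pos_of_ne_zero h2), h3⟩,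
          Nat.Coprime.coprime_dvd_left h1 (hWc h hh)⟩, h1⟩
      · rintro ⟨⟨⟨_, h2⟩, _⟩, h4⟩
        exact ⟨⟨h4, hWpos h hh⟩, h2⟩
    rw [Finset.sum_congr rfl h1, Finset.sum_comm]
    apply Finset.sum_congr rfl
    intro g _
    rw [← Finset.sum_filter, Finset.sum_const, nsmul_eq_mul]
  have hJ : ∀ g : ℕ, |(jacobiSym N g : ℝ)| ≤ 1 := by
    intro g
    rcases jacobiSym.trichotomy (N : ℤ) g with h | h | h <;> rw [h] <;> simp
  have hsm : ∑ g ∈ cop q G, (((Wj q w₀ T δ j).filter (fun h => g ∣ h)).card : ℝ) * (jacobiSym N g : ℝ) ≤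
      δ * T / (4 * q * j) * (∑ g ∈ cop q G, 1 / (g : ℝ) * (jacobiSym N g : ℝ)) + G := by
    have h1 : ∀ g ∈ cop q G, (((Wj q w₀ T δ j).filter (fun h => g ∣ h)).card : ℝ) * (jacobiSym N g : ℝ) ≤
        δ * T / (4 * q * j) * (1 / (g : ℝ) * (jacobiSym N g : ℝ)) + 1 := by
      intro g hg
      have h2 := SMR_small (G := G) hq hw hj hT hδ hδ1 hj1 g hg
      have h3 : |((((Wj q w₀ T δ j).filter (fun h => g ∣ h)).card : ℝ) - δ * T / (4 * q * j) * (1 / (g : ℝ))) *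
          (jacobiSym N g : ℝ)| ≤ 1 := by
        rw [abs_mul]
        exact mul_le_one₀ h2 (abs_nonneg _) (hJ g)
      have h4 := (abs_le.1 h3).2
      rw [sub_mul] at h4
      linarith
    have h5 : ((cop q G).card : ℝ) ≤ G := by
      have h6 : (cop q G).card ≤ (Icc 1 G).card := Finset.card_filter_le _ _
      rw [Nat.card_Icc] at h6
      have h7 : (cop q G).card ≤ G := by omega
      exact_mod_cast h7
    calc ∑ g ∈ cop q G, (((Wj q w₀ T δ j).filter (fun h => g ∣ h)).card : ℝ) * (jacobiSym N g : ℝ)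
        ≤ ∑ g ∈ cop q G, (δ * T / (4 * q * j) * (1 / (g : ℝ) * (jacobiSym N g : ℝ)) + 1) :=
          Finset.sum_le_sum h1
      _ = δ * T / (4 * q * j) * (∑ g ∈ cop q G, 1 / (g : ℝ) * (jacobiSym N g : ℝ)) + (cop q G).card := by
          rw [Finset.sum_add_distrib, ← Finset.mul_sum, Finset.sum_const, nsmul_eq_mul, mul_one]
      _ ≤ δ * T / (4 * q * j) * (∑ g ∈ cop q G, 1 / (g : ℝ) * (jacobiSym N g : ℝ)) + G := by linarith
  -- the large divisors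
  set B : ℕ := ⌊2 * T / ((j : ℝ) * G)⌋₊ with hB
  have hlarge : ∑ h ∈ Wj q w₀ T δ j, ∑ g ∈ h.divisors.filter (fun g => ¬ g ≤ G), (jacobiSym N g : ℝ) =
      ∑ t ∈ Icc 1 B, ∑ g ∈ SMR_Gt q w₀ j G T δ t, (jacobiSym N g : ℝ) := by
    rw [Finset.sum_sigma', Finset.sum_sigma']
    refine Finset.sum_bij' (fun p _ => ⟨p.1 / p.2, p.2⟩) (fun p _ => ⟨p.2 * p.1, p.2⟩) ?_ ?_ ?_ ?_ ?_
    · rintro ⟨h, g⟩ hp
      simp only [Finset.mem_sigma, Finset.mem_filter, Nat.mem_divisors, not_le] at hp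
      obtain ⟨hh, ⟨⟨t, rfl⟩, h0⟩, hgG⟩ := hp
      have hg0 : 0 < g := by omega
      have ht0 : 0 < t := Nat.pos_of_ne_zero (fun h => h0 (by rw [h, mul_zero]))
      simp only [Finset.mem_sigma, Finset.mem_Icc]
      rw [Nat.mul_div_cancel_left t hg0]
      have hm := (SMR_mem (q := q) (w₀ := w₀) (j := j) (T := T) (δ := δ) (g * t)).1 hh
      refine ⟨⟨ht0, ?_⟩, ?_⟩
      · rw [hB, Nat.le_floor_iff (by positivity), le_div_iff₀ (by positivity)]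
        have h1 := hm.2.2.2
        push_cast at h1
        have h2 : (G : ℝ) ≤ g := by exact_mod_cast hgG.le
        have h3 : (0 : ℝ) < t := by exact_mod_cast ht0
        calc (t : ℝ) * ((j : ℝ) * G) ≤ (t : ℝ) * ((j : ℝ) * g) := by
              apply mul_le_mul_of_nonneg_left _ h3.le
              exact mul_le_mul_of_nonneg_left h2 (by linarith)
          _ = (j : ℝ) * (g * t) := by ring
          _ ≤ (1 + δ) * T := h1
          _ ≤ 2 * T := by nlinarith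
      · unfold SMR_Gt
        rw [Finset.mem_filter, Finset.mem_range]
        refine ⟨?_, hgG, hh⟩
        have : g ≤ g * t := Nat.le_mul_of_pos_right g ht0
        omega
    · rintro ⟨t, g⟩ hp
      simp only [Finset.mem_sigma, Finset.mem_Icc] at hp
      obtain ⟨⟨ht, -⟩, hg⟩ := hp
      unfold SMR_Gt at hg
      rw [Finset.mem_filter, Finset.mem_range] at hg
      simp only [Finset.mem_sigma, Finset.mem_filter, Nat.mem_divisors, not_le]
      exact ⟨hg.2.2, ⟨dvd_mul_right _ _, hWpos _ hg.2.2⟩, hg.2.1⟩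
    · rintro ⟨h, g⟩ hp
      simp only [Finset.mem_sigma, Finset.mem_filter, Nat.mem_divisors, not_le] at hp
      obtain ⟨_, ⟨hd, _⟩, _⟩ := hp
      simp only [Nat.mul_div_cancel' hd]
    · rintro ⟨t, g⟩ hp
      simp only [Finset.mem_sigma, Finset.mem_Icc] at hp
      obtain ⟨⟨ht, -⟩, hg⟩ := hp
      unfold SMR_Gt at hg
      rw [Finset.mem_filter, Finset.mem_range] at hg
      have hg0 : 0 < g := by omega
      simp only [Nat.mul_div_cancel_left t hg0]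
    · rintro ⟨h, g⟩ _
      rfl
  have hlg : ∑ t ∈ Icc 1 B, ∑ g ∈ SMR_Gt q w₀ j G T δ t, (jacobiSym N g : ℝ) ≤ 2 * T / (j * G) * N := by
    have h1 : ∀ t ∈ Icc 1 B, ∑ g ∈ SMR_Gt q w₀ j G T δ t, (jacobiSym N g : ℝ) ≤ (N : ℝ) := by
      intro t ht
      rw [Finset.mem_Icc] at ht
      have h2 := (abs_le.1 (SMR_large (G := G) hCHS hq hw hj hN hN4 hNs hT hδ hδ1 hj1 t ht.1)).2
      have h3 : ((∑ g ∈ SMR_Gt q w₀ j G T δ t, jacobiSym N g : ℤ) : ℝ) ≤ ((N : ℤ) : ℝ) := by exact_mod_cast h2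
      push_cast at h3
      exact h3
    calc ∑ t ∈ Icc 1 B, ∑ g ∈ SMR_Gt q w₀ j G T δ t, (jacobiSym N g : ℝ) ≤ ∑ t ∈ Icc 1 B, (N : ℝ) :=
          Finset.sum_le_sum h1
      _ = (B : ℝ) * N := by
          rw [Finset.sum_const, Nat.card_Icc, nsmul_eq_mul, Nat.add_sub_cancel]
      _ ≤ 2 * T / (j * G) * N := by
          apply mul_le_mul_of_nonneg_right _ (Nat.cast_nonneg N)
          rw [hB]
          exact Nat.floor_le (by positivity)
  rw [hsplit, hsmall, hlarge]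
  have hN0 : (0 : ℝ) ≤ N := Nat.cast_nonneg N
  have e : (2 * T / (j * G) + 1) * (N : ℝ) = 2 * T / (j * G) * N + N := by ring
  rw [e]
  linarith

end Pool.Agent.SU
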